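import Mathlib
import Pool.Agent.Helper76.ClusterMain

set_option autoImplicit false
universe u v w

/-!
# MP_f5adcb_gt: a space with a cocompact pretty base which is not a space of minimal primes
-/

namespace Pool.Agent.Results.MP_f5adcb_gt.NotMinPrimeSpace

open Set TopologicalSpace Pool.Agent.Helper76

/-- `𝓑` is a pretty base of `X`: a base of clopen sets such that for every countable `𝒞 ⊆ 𝓑` and
every `𝒟 ⊆ 𝓑` with every member of `𝒞` disjoint from every member of `𝒟`, some `B ∈ 𝓑` contains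
the union of `𝒞` and misses every member of `𝒟`. -/
def IsPrettyBase {X : Type u} [TopologicalSpace X] (𝓑 : Set (Set X)) : Prop :=
  IsTopologicalBasis 𝓑 ∧ (∀ B ∈ 𝓑, IsClopen B) ∧
    ∀ 𝒞 𝒟 : Set (Set X), 𝒞 ⊆ 𝓑 → 𝒟 ⊆ 𝓑 → 𝒞.Countable → (∀ C ∈ 𝒞, ∀ D ∈ 𝒟, C ∩ D = ∅) →
      ∃ B ∈ 𝓑, ⋃₀ 𝒞 ⊆ B ∧ ∀ D ∈ 𝒟, B ∩ D = ∅

/-- The cotopology of `𝓑`: the topology generated by the complements of closures of members
of `𝓑`. -/
abbrev cotopology {X : Type u} [TopologicalSpace X] (𝓑 : Set (Set X)) : TopologicalSpace X :=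
  generateFrom {U | ∃ B ∈ 𝓑, U = (closure B)ᶜ}

/-- `𝓑` is cocompact: its cotopology is compact. -/
def IsCocompact {X : Type u} [TopologicalSpace X] (𝓑 : Set (Set X)) : Prop :=
  @CompactSpace X (cotopology 𝓑)

/-- The set of all minimal prime ideals of `R`. -/
def MinPrimeSpace (R : Type v) [CommRing R] : Type v := {P : Ideal R // P ∈ minimalPrimes R}

/-- The basic set of all minimal primes not containing `a`. -/
def hc {R : Type v} [CommRing R] (a : R) : Set (MinPrimeSpace R) := {P | a ∉ P.1}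

/-- The hull-kernel topology, generated by the sets `hc a`. -/
instance (R : Type v) [CommRing R] : TopologicalSpace (MinPrimeSpace R) :=
  generateFrom {U | ∃ a : R, U = hc a}

/-- The countable annihilator condition. -/
def CAC (R : Type v) [CommRing R] : Prop :=
  ∀ a : ℕ → R, ∃ b : R, ∀ x : R, b * x = 0 ↔ ∀ n, a n * x = 0

section ring

variable {R : Type v} [CommRing R]

theorem mem_hc {a : R} {P : MinPrimeSpace R} : P ∈ hc a ↔ a ∉ P.1 := Iff.rfl

theorem isPrime (P : MinPrimeSpace R) : P.1.IsPrime := Ideal.IsMinimalPrime.isPrime P.2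

theorem hc_mul (a b : R) : hc (a * b) = hc a ∩ hc b := by
  ext P
  have := isPrime P
  rw [mem_inter_iff, mem_hc, mem_hc, mem_hc, this.mul_mem_iff_mem_or_mem]
  tauto

theorem hc_zero : hc (0 : R) = ∅ := by
  ext P
  simp [hc]

theorem hc_one : hc (1 : R) = univ := by
  ext P
  have := isPrime P
  simp only [mem_univ, iff_true]
  exact fun h => this.ne_top ((Ideal.eq_top_iff_one _).2 h)

theorem exists_notMem_mul_eq_zero [IsReduced R] (P : MinPrimeSpace R) {a : R} (ha : a ∈ P.1) :
    ∃ c, c ∉ P.1 ∧ a * c = 0 := by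
  by_contra hcon
  push Not at hcon
  have hP := isPrime P
  let S : Submonoid R :=
    { carrier := {s | ∃ n : ℕ, ∃ y, y ∉ P.1 ∧ s = a ^ n * y}
      one_mem' := ⟨0, 1, fun h => hP.ne_top ((Ideal.eq_top_iff_one _).2 h), by simp⟩
      mul_mem' := by
        rintro _ _ ⟨n, y, hy, rfl⟩ ⟨m, z, hz, rfl⟩
        refine ⟨n + m, y * z, ?_, by ring⟩
        intro h
        rcases hP.mem_or_mem h with h | h
        · exact hy h
        · exact hz h }
  have h0 : (0 : R) ∉ S := by
    rintro ⟨n, y, hy, h⟩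
    apply hcon y hy
    have : (a * y) ^ (n + 1) = 0 := by
      have : (a * y) ^ (n + 1) = (a ^ n * y) * (a * y ^ n) := by ring
      rw [this, ← h, zero_mul]
    exact pow_eq_zero_iff (Nat.succ_ne_zero n) |>.1 this
  obtain ⟨Q, hQ, -, hQS⟩ := Ideal.exists_le_prime_disjoint (⊥ : Ideal R) S (by
    rw [Set.disjoint_left]
    rintro x hx hxS
    rw [SetLike.mem_coe, Ideal.mem_bot] at hx
    subst hx
    exact h0 hxS)
  have hQP : Q ≤ P.1 := by
    intro q hq
    by_contra hqP
    exact Set.disjoint_left.1 hQS hq ⟨0, q, hqP, by simp⟩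
  have hPQ : P.1 ≤ Q := P.2.2 ⟨hQ, bot_le⟩ hQP
  refine Set.disjoint_left.1 hQS (hPQ ha) ⟨1, 1, ?_, by simp⟩
  exact fun h => hP.ne_top ((Ideal.eq_top_iff_one _).2 h)

theorem isOpen_hc (a : R) : IsOpen (hc a) := isOpen_generateFrom_of_mem ⟨a, rfl⟩

theorem isClosed_hc [IsReduced R] (a : R) : IsClosed (hc a) := by
  rw [← isOpen_compl_iff, isOpen_iff_forall_mem_open]
  intro P hP
  have ha : a ∈ P.1 := by
    by_contra h
    exact hP h
  obtain ⟨c, hc1, hc2⟩ := exists_notMem_mul_eq_zero P ha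
  refine ⟨hc c, ?_, isOpen_hc c, hc1⟩
  intro Q hQ hQa
  have : Q ∈ hc (a * c) := by
    rw [hc_mul]
    exact ⟨hQa, hQ⟩
  rw [hc2, hc_zero] at this
  exact this

theorem isTopologicalBasis_hc : IsTopologicalBasis {U : Set (MinPrimeSpace R) | ∃ a, U = hc a} where
  exists_subset_inter := by
    rintro _ ⟨a, rfl⟩ _ ⟨b, rfl⟩ P hP
    exact ⟨hc (a * b), ⟨_, rfl⟩, by rwa [hc_mul], by rw [hc_mul]⟩
  sUnion_eq := by
    apply eq_univ_of_forall
    intro P
    exact ⟨hc 1, ⟨1, rfl⟩, by rw [hc_one]; exact mem_univ P⟩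
  eq_generateFrom := rfl

theorem eq_zero_of_hc_eq_empty [IsReduced R] {a : R} (h : hc a = ∅) : a = 0 := by
  have h1 : a ∈ sInf (⊥ : Ideal R).minimalPrimes := by
    rw [Submodule.mem_sInf]
    intro P hP
    by_contra hn
    have : (⟨P, hP⟩ : MinPrimeSpace R) ∈ hc a := hn
    rw [h] at this
    exact this
  rw [Ideal.sInf_minimalPrimes] at h1
  obtain ⟨n, hn⟩ := Ideal.mem_radical_iff.1 h1
  rw [Ideal.mem_bot] at hn
  exact eq_zero_of_pow_eq_zero hn

/-- The sets `hc a` form a base with all the properties of `NiceBase`. -/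
theorem niceBase_hc [IsReduced R] (hR : CAC R) :
    NiceBase {U : Set (MinPrimeSpace R) | ∃ a, U = hc a} := by
  refine ⟨isTopologicalBasis_hc, ?_, ?_, ?_⟩
  · rintro _ ⟨a, rfl⟩ _ ⟨b, rfl⟩
    exact ⟨a * b, (hc_mul a b).symm⟩
  · intro f hf
    choose a ha using hf
    obtain ⟨b, hb⟩ := hR a
    refine ⟨b, Subset.antisymm ?_ ?_⟩
    · apply closure_minimal _ (isClosed_hc b)
      apply iUnion_subset
      intro n
      rw [ha n]
      intro P hP hbP
      obtain ⟨c, hc1, hc2⟩ := exists_notMem_mul_eq_zero P hbP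
      have h3 := (hb c).1 hc2 n
      have h4 : a n * c ∈ P.1 := by
        rw [h3]
        exact P.1.zero_mem
      rcases (isPrime P).mem_or_mem h4 with h | h
      · exact hP h
      · exact hc1 h
    · intro P hP
      rw [isTopologicalBasis_hc.mem_closure_iff]
      rintro _ ⟨x, rfl⟩ hx
      by_contra hemp
      rw [not_nonempty_iff_eq_empty] at hemp
      have h5 : ∀ n, a n * x = 0 := by
        intro n
        apply eq_zero_of_hc_eq_empty
        rw [hc_mul, ← ha n]
        apply eq_empty_of_subset_empty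
        rw [← hemp]
        rintro Q ⟨h1, h2⟩
        exact ⟨h2, mem_iUnion.2 ⟨n, h1⟩⟩
      have h6 := (hb x).2 h5
      have h7 : b * x ∈ P.1 := by
        rw [h6]
        exact P.1.zero_mem
      rcases (isPrime P).mem_or_mem h7 with h | h
      · exact hP h
      · exact hx h
  · intro F hF hFc
    let S : Submonoid R := Submonoid.closure {a : R | hc a ∈ F}
    have hS : ∀ s ∈ S, ∃ t ⊆ F, t.Finite ∧ ⋂₀ t ⊆ hc s := by
      intro s hs
      induction hs using Submonoid.closure_induction with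
      | mem a ha => exact ⟨{hc a}, by simpa using ha, finite_singleton _, by simp⟩
      | one => exact ⟨∅, empty_subset _, finite_empty, by rw [hc_one]; exact subset_univ _⟩
      | mul a b _ _ iha ihb =>
        obtain ⟨t1, h1, h1f, h1s⟩ := iha
        obtain ⟨t2, h2, h2f, h2s⟩ := ihb
        refine ⟨t1 ∪ t2, union_subset h1 h2, h1f.union h2f, ?_⟩
        rw [hc_mul, sInter_union]
        exact inter_subset_inter h1s h2s
    have h0 : (0 : R) ∉ S := by
      intro h
      obtain ⟨t, ht, htf, hts⟩ := hS 0 h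
      rw [hc_zero] at hts
      exact not_nonempty_empty ((hFc t ht htf).mono hts)
    obtain ⟨Q, hQ, -, hQS⟩ := Ideal.exists_le_prime_disjoint (⊥ : Ideal R) S (by
      rw [Set.disjoint_left]
      rintro x hx hxS
      rw [SetLike.mem_coe, Ideal.mem_bot] at hx
      subst hx
      exact h0 hxS)
    obtain ⟨P, hP, hPQ⟩ := Ideal.exists_minimalPrimes_le (I := (⊥ : Ideal R)) (J := Q) bot_le
    refine ⟨⟨P, hP⟩, ?_⟩
    intro U hU
    obtain ⟨a, rfl⟩ := hF hU
    intro ha
    exact Set.disjoint_left.1 hQS (hPQ ha) (Submonoid.subset_closure hU)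

end ring

/-- The ring of continuous functions satisfies the countable annihilator condition. -/
theorem cac_continuousMap (Y : Type w) [TopologicalSpace Y] : CAC C(Y, ℝ) := by
  intro f
  let g : ℕ → Y → ℝ := fun n y => (1 / 2 : ℝ) ^ n * min |f n y| 1
  have hg0 : ∀ n y, 0 ≤ g n y := fun n y =>
    mul_nonneg (by positivity) (le_min (abs_nonneg _) zero_le_one)
  have hg1 : ∀ n y, ‖g n y‖ ≤ (1 / 2 : ℝ) ^ n := by
    intro n y
    rw [Real.norm_of_nonneg (hg0 n y)]
    calc g n y ≤ (1 / 2 : ℝ) ^ n * 1 := by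
          apply mul_le_mul_of_nonneg_left (min_le_right _ _) (by positivity)
      _ = (1 / 2 : ℝ) ^ n := mul_one _
  have hsum : Summable (fun n : ℕ => (1 / 2 : ℝ) ^ n) := summable_geometric_two
  have hgc : ∀ n, Continuous (g n) := by
    intro n
    exact continuous_const.mul ((f n).continuous.abs.min continuous_const)
  let b : C(Y, ℝ) := ⟨fun y => ∑' n, g n y, continuous_tsum hgc hsum hg1⟩
  have hb : ∀ y, b y = 0 ↔ ∀ n, f n y = 0 := by
    intro y
    have hs : Summable (fun n => g n y) := Summable.of_norm_bounded hsum (fun n => hg1 n y)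
    have h1 : b y = 0 ↔ HasSum (fun n => g n y) 0 := by
      constructor
      · intro h
        have := hs.hasSum
        rwa [show ∑' n, g n y = 0 from h] at this
      · intro h
        exact h.tsum_eq
    rw [h1, hasSum_zero_iff_of_nonneg (fun n => hg0 n y)]
    constructor
    · intro h n
      have h2 : g n y = 0 := congrFun h n
      have h3 : (1 / 2 : ℝ) ^ n ≠ 0 := by positivity
      have h4 : min |f n y| 1 = 0 := by
        rcases mul_eq_zero.1 h2 with h | h
        · exact absurd h h3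
        · exact h
      rcases min_choice |f n y| 1 with h5 | h5
      · rw [h5] at h4
        exact abs_eq_zero.1 h4
      · rw [h5] at h4
        exact absurd h4 one_ne_zero
    · intro h
      funext n
      simp [g, h n]
  refine ⟨b, fun x => ?_⟩
  constructor
  · intro h n
    ext y
    have h1 : b y * x y = 0 := by
      have := DFunLike.congr_fun h y
      simpa using this
    rw [ContinuousMap.mul_apply, ContinuousMap.zero_apply]
    rcases mul_eq_zero.1 h1 with h2 | h2
    · rw [(hb y).1 h2 n, zero_mul]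
    · rw [h2, mul_zero]
  · intro h
    ext y
    rw [ContinuousMap.mul_apply, ContinuousMap.zero_apply]
    by_cases hx : x y = 0
    · rw [hx, mul_zero]
    · have : b y = 0 := by
        rw [hb]
        intro n
        have := DFunLike.congr_fun (h n) y
        rw [ContinuousMap.mul_apply, ContinuousMap.zero_apply] at this
        rcases mul_eq_zero.1 this with h3 | h3
        · exact h3
        · exact absurd h3 hx
      rw [this, zero_mul]

theorem isReduced_continuousMap (Y : Type w) [TopologicalSpace Y] : IsReduced C(Y, ℝ) := by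
  refine ⟨?_⟩
  rintro f ⟨n, hn⟩
  ext y
  have := DFunLike.congr_fun hn y
  rw [ContinuousMap.coe_pow, Pi.pow_apply, ContinuousMap.zero_apply] at this
  rw [ContinuousMap.zero_apply]
  exact eq_zero_of_pow_eq_zero this

/-- Nice bases transfer along homeomorphisms. -/
theorem niceBase_of_homeomorph {X : Type u} {Y : Type v} [TopologicalSpace X] [TopologicalSpace Y]
    (e : X ≃ₜ Y) {𝓑 : Set (Set Y)} (h : NiceBase 𝓑) : NiceBase (preimage e '' 𝓑) := by
  refine ⟨h.basis.isInducing e.isInducing, ?_, ?_, ?_⟩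
  · rintro _ ⟨U, hU, rfl⟩ _ ⟨W, hW, rfl⟩
    exact ⟨U ∩ W, h.inter U hU W hW, preimage_inter⟩
  · intro f hf
    choose g hg hgf using hf
    refine ⟨closure (⋃ n, g n), h.clu g hg, ?_⟩
    rw [e.preimage_closure, preimage_iUnion]
    congr 1
    exact iUnion_congr hgf
  · intro F hF hFc
    obtain ⟨y, hy⟩ := h.fip {U | U ∈ 𝓑 ∧ e ⁻¹' U ∈ F} (fun U hU => hU.1) (by
      intro t ht htf
      obtain ⟨x, hx⟩ := hFc (preimage e '' t) (by
        rintro _ ⟨U, hU, rfl⟩
        exact (ht hU).2) (htf.image _)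
      exact ⟨e x, fun U hU => hx _ ⟨U, hU, rfl⟩⟩)
    refine ⟨e.symm y, ?_⟩
    intro V hV
    obtain ⟨U, hU, rfl⟩ := hF hV
    simpa using hy U ⟨hU, hV⟩

/-- There is a Tychonoff space with a cocompact pretty base which is homeomorphic to no space of
minimal primes of a ring `C(Y, ℝ)` and to no space of minimal primes of a reduced commutative ring
with the countable annihilator condition. -/
theorem result : ∃ (X : Type u) (_ : TopologicalSpace X), T35Space X ∧
    (∃ 𝓑 : Set (Set X), IsPrettyBase 𝓑 ∧ IsCocompact 𝓑) ∧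
    (∀ (Y : Type w) [TopologicalSpace Y], IsEmpty (X ≃ₜ MinPrimeSpace C(Y, ℝ))) ∧
    ∀ (R : Type v) [CommRing R] [IsReduced R], CAC R → IsEmpty (X ≃ₜ MinPrimeSpace R) := by
  obtain ⟨c⟩ := exists_config'.{u}
  have key : ∀ 𝓑 : Set (Set (Ult2 (Cluster.fam c))), ¬ NiceBase 𝓑 :=
    fun 𝓑 h𝓑 => Cluster.no_nice_base 𝓑 h𝓑
  refine ⟨Ult2 (Cluster.fam c), inferInstance, Ult2.t35Space Cluster.empty_mem_fam,
    ⟨Ult2.base (Cluster.fam c), ⟨Ult2.isTopologicalBasis Cluster.empty_mem_fam, ?_, ?_⟩,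
      Ult2.cocompact Cluster.empty_mem_fam Cluster.ext_fam⟩, ?_, ?_⟩
  · rintro _ ⟨B, hB, rfl⟩
    exact Ult2.isClopen_hat hB
  · intro 𝒞 𝒟 h𝒞 h𝒟 hc hd
    obtain ⟨B, hB, hB1, hB2⟩ := Ult2.pretty Cluster.empty_mem_fam Cluster.ext_fam
      Cluster.iUnion_mem_fam 𝒞 𝒟 h𝒞 h𝒟 hc
      (fun C hC E hE => Set.disjoint_iff_inter_eq_empty.2 (hd C hC E hE))
    exact ⟨B, hB, Set.sUnion_subset hB1, fun E hE => Set.disjoint_iff_inter_eq_empty.1 (hB2 E hE)⟩
  · intro Y _
    have := isReduced_continuousMap Y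
    refine ⟨fun e => ?_⟩
    exact key _ (niceBase_of_homeomorph e (niceBase_hc (cac_continuousMap Y)))
  · intro R _ _ hR
    refine ⟨fun e => ?_⟩
    exact key _ (niceBase_of_homeomorph e (niceBase_hc hR))

end Pool.Agent.Results.MP_f5adcb_gt.NotMinPrimeSpace
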